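import Pool.Agent.W_MP_c8d28d_lc.Main

set_option autoImplicit false

/-!
Question Q1: finding Type-A orders is NP-hard.
-/

namespace Pool.Agent.Results.MP_c8d28d_lc.TypeAHard

open Pool.Agent.W_MP_c8d28d_lc

/-- If some machine finds, in polynomial time, a Type-A order of every graph that has one, then
satisfiability can be decided in polynomial time. -/
theorem result : PolyTimeFinder (fun G l => IsTypeA G l) → SATinP :=
  reduction_promise (T := fun G l => IsTypeA G l) (fun _ _ h => h)
    (fun _ _ h => ⟨h.1, fun v => Or.inl (h.2 v)⟩)

end Pool.Agent.Results.MP_c8d28d_lc.TypeAHard
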